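import Pool.Agent.N343.LT.Stm

/-! # LT/EXP: splitting off one colour class (helper769, project LT of helper343) -/

set_option autoImplicit false

namespace Pool.Agent.N769.LT.EXP

open MvPolynomial Finset Pool.Agent.Helper929 Pool.Agent.H604R2.LEC Pool.Agent.Y819.ZF
  Pool.Agent.N343.LT

variable {R : Type} [CommRing R] {E : Type} [Fintype E] {n : ℕ}

/-- the restriction -/
noncomputable def gR (R : Type) [CommRing R] {E : Type} (P : E → Prop) [DecidablePred P] :
    MvPolynomial E R →ₐ[R] MvPolynomial {e // P e} R :=
  aeval fun e => if h : P e then X ⟨e, h⟩ else 0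

/-- the indicator exponent -/
noncomputable def iE (P : E → Prop) [DecidablePred P] : E →₀ ℕ :=
  Finsupp.equivFunOnFinite.symm fun e => if P e then 1 else 0

theorem iE_apply (P : E → Prop) [DecidablePred P] (e : E) : iE P e = if P e then 1 else 0 := rfl

theorem coeff_gR (P : E → Prop) [DecidablePred P] [hF : Fintype {e // P e}] (q : MvPolynomial E R) :
    coeff (oneE {e // P e}) (gR R P q) = coeff (iE P) q := by
  classical
  obtain rfl : hF = Subtype.fintype P := Subsingleton.elim _ _
  induction q using MvPolynomial.induction_on' with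
  | add g h hg hh => rw [map_add, coeff_add, coeff_add, hg, hh]
  | monomial a r =>
    have h1 : gR R P (monomial a r) = C r * ∏ e, (if h : P e then (X ⟨e, h⟩ : MvPolynomial {e // P e} R)
        else 0) ^ a e := by
      unfold gR
      rw [aeval_monomial, Finsupp.prod_fintype _ _ (fun i => pow_zero _)]
      rfl
    rw [h1, coeff_C_mul, coeff_monomial]
    by_cases hz : ∀ e, ¬ P e → a e = 0
    · have h2 : ∏ e, (if h : P e then (X ⟨e, h⟩ : MvPolynomial {e // P e} R) else 0) ^ a e =
          monomial (Finsupp.equivFunOnFinite.symm fun e : {e // P e} => a e) 1 := by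
        rw [← Fintype.prod_subtype_mul_prod_subtype P]
        have h3 : ∏ i : {x // ¬ P x}, (if h : P i then (X ⟨i, h⟩ : MvPolynomial {e // P e} R)
            else 0) ^ a i = 1 := by
          refine Finset.prod_eq_one fun e _ => ?_
          rw [hz e.1 e.2, pow_zero]
        rw [h3, mul_one, monomial_eq, C_1, one_mul, Finsupp.prod_fintype _ _ (fun i => pow_zero _)]
        refine Finset.prod_congr rfl fun e _ => ?_
        rw [dif_pos e.2]
        rfl
      rw [h2, coeff_monomial]
      have h4 : ((Finsupp.equivFunOnFinite.symm fun e : {e // P e} => a e) = oneE {e // P e}) ↔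
          a = iE P := by
        constructor
        · intro h
          ext e
          rw [iE_apply]
          split_ifs with he
          · exact DFunLike.congr_fun h ⟨e, he⟩
          · exact hz e he
        · intro h
          ext e
          have := DFunLike.congr_fun h e.1
          rw [iE_apply, if_pos e.2] at this
          exact this
      by_cases h5 : a = iE P
      · rw [if_pos (h4.2 h5), if_pos h5, mul_one]
      · rw [if_neg (fun h => h5 (h4.1 h)), if_neg h5, mul_zero]
    · push Not at hz
      obtain ⟨e, he, hae⟩ := hz
      have h2 : ∏ e, (if h : P e then (X ⟨e, h⟩ : MvPolynomial {e // P e} R) else 0) ^ a e = 0 := by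
        refine Finset.prod_eq_zero (Finset.mem_univ e) ?_
        rw [dif_neg he, zero_pow hae]
      have h5 : a ≠ iE P := by
        intro h
        apply hae
        rw [h, iE_apply, if_neg he]
      rw [h2, coeff_zero, mul_zero, if_neg h5]

theorem SM_map (P : E → Prop) [DecidablePred P] [hF : Fintype {e // P e}] (τ η : E → Fin n) :
    (SM R τ η).map (gR R P) = SM R (fun e : {e // P e} => τ e) (fun e : {e // P e} => η e) := by
  classical
  obtain rfl : hF = Subtype.fintype P := Subsingleton.elim _ _
  ext1 i j
  rw [Matrix.map_apply]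
  unfold SM
  rw [Matrix.of_apply, Matrix.of_apply, map_sum, ← Fintype.sum_subtype_add_sum_subtype P]
  have h3 : ∑ e : {x // ¬ P x}, gR R P ((if τ e = i ∧ η e = j then (X e.1 : MvPolynomial E R) else 0) -
      (if τ e = j ∧ η e = i then X e.1 else 0)) = 0 := by
    refine Finset.sum_eq_zero fun e _ => ?_
    have h4 : gR R P (X e.1) = 0 := by
      unfold gR
      rw [aeval_X, dif_neg e.2]
    rw [map_sub]
    split_ifs <;> simp [h4]
  rw [h3, add_zero]
  refine Finset.sum_congr rfl fun e _ => ?_
  have h4 : gR R P (X e.1) = X e := by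
    unfold gR
    rw [aeval_X, dif_pos e.2]
  rw [map_sub]
  split_ifs <;> simp [h4]

theorem key (P : E → Prop) [DecidablePred P] [Fintype {e // P e}] (τ η : E → Fin n) (d : ℕ) :
    coeff (iE P) (pf n (SM R τ η) ^ d) =
      cc R d (fun e : {e // P e} => τ e) (fun e : {e // P e} => η e) := by
  unfold cc
  rw [← coeff_gR, map_pow]
  congr 2
  have h := pf_map (gR R P).toRingHom n (SM R τ η)
  have e1 : (SM R τ η).map (gR R P).toRingHom =
      SM R (fun e : {e // P e} => τ e) (fun e : {e // P e} => η e) := SM_map P τ η
  rw [e1] at h
  exact h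

theorem main : S_EXP := by
  intro R _ d n E _ _ τ η
  classical
  unfold cc
  rw [pow_succ', coeff_mul]
  symm
  refine Finset.sum_bij' (i := fun (S : Finset E) _ => (iE (fun e => e ∈ S), iE (fun e => e ∉ S)))
    (j := fun x _ => univ.filter fun e => x.1 e = 1) ?_ ?_ ?_ ?_ ?_
  · intro S _
    rw [HasAntidiagonal.mem_antidiagonal]
    ext e
    rw [Finsupp.add_apply, iE_apply, iE_apply]
    change _ = 1
    by_cases h : e ∈ S
    · simp [h]
    · simp [h]
  · intro x _
    exact mem_univ _
  · intro S _
    ext e
    simp only [mem_filter, mem_univ, true_and, iE_apply]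
    by_cases h : e ∈ S
    · simp [h]
    · simp [h]
  · intro x hx
    rw [HasAntidiagonal.mem_antidiagonal] at hx
    have hv : ∀ e, x.1 e + x.2 e = 1 := fun e => DFunLike.congr_fun hx e
    ext e
    · simp only [iE_apply, mem_filter, mem_univ, true_and]
      have := hv e
      split_ifs <;> omega
    · simp only [iE_apply, mem_filter, mem_univ, true_and]
      have := hv e
      split_ifs <;> omega
  · intro S _
    have h1 := key (R := R) (fun e => e ∈ S) τ η 1
    have h2 := key (R := R) (fun e => e ∉ S) τ η d
    unfold cc at h1 h2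
    rw [← h1, ← h2, pow_one]

end Pool.Agent.N769.LT.EXP
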