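import Pool.Agent.N343.LT.Stm

/-! # LT/MAT: two perfect matchings of `K_{n,n,n}` are equivalent (helper769, project LT of helper343) -/

set_option autoImplicit false

namespace Pool.Agent.N769.LT.MAT

open Finset Pool.Agent.N343.LT

/-- two maps with equinumerous fibres -/
theorem exists_equiv {V Y : Type} [Fintype V] [DecidableEq V] [DecidableEq Y] (c₀ c : V → Y)
    (h : ∀ y, (univ.filter fun v => c₀ v = y).card = (univ.filter fun v => c v = y).card) :
    ∃ G : V ≃ V, ∀ v, c (G v) = c₀ v := by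
  have e : ∀ y, Nonempty ({v // c₀ v = y} ≃ {v // c v = y}) := by
    intro y
    refine ⟨Fintype.equivOfCardEq ?_⟩
    rw [Fintype.card_subtype, Fintype.card_subtype]
    exact h y
  have e := fun y => (e y).some
  refine ⟨(Equiv.sigmaFiberEquiv c₀).symm.trans ((Equiv.sigmaCongrRight fun y => e y).trans
    (Equiv.sigmaFiberEquiv c)), fun v => ?_⟩
  exact (e (c₀ v) ⟨v, rfl⟩).2

section

variable {n : ℕ} (π : Fin 3 × Fin n → Fin 3 × Fin n)

/-- the number of the edges -/
def cnt (i j : Fin 3) : ℕ := (univ.filter fun v : Fin 3 × Fin n => (v.1, (π v).1) = (i, j)).card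

theorem cnt_symm (h : ∀ v, π (π v) = v) (i j : Fin 3) : cnt π i j = cnt π j i := by
  unfold cnt
  refine Finset.card_nbij' π π ?_ ?_ ?_ ?_
  · intro v hv
    simp only [coe_filter, mem_univ, true_and, Prod.mk.injEq, Set.mem_setOf_eq] at hv ⊢
    rw [h]
    exact ⟨hv.2, hv.1⟩
  · intro v hv
    simp only [coe_filter, mem_univ, true_and, Prod.mk.injEq, Set.mem_setOf_eq] at hv ⊢
    rw [h]
    exact ⟨hv.2, hv.1⟩
  · intro v _
    exact h v
  · intro v _
    exact h v

theorem cnt_self (h : ∀ v, (π v).1 ≠ v.1) (i : Fin 3) : cnt π i i = 0 := by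
  unfold cnt
  rw [Finset.card_eq_zero, Finset.filter_eq_empty_iff]
  intro v _ hv
  rw [Prod.mk.injEq] at hv
  exact h v (hv.2.trans hv.1.symm)

theorem cnt_sum (i : Fin 3) : cnt π i 0 + cnt π i 1 + cnt π i 2 = n := by
  have h1 : (univ.filter fun v : Fin 3 × Fin n => v.1 = i).card = n := by
    have e : (univ.filter fun v : Fin 3 × Fin n => v.1 = i) = ({i} : Finset (Fin 3)) ×ˢ univ := by
      ext v
      simp only [mem_filter, mem_univ, true_and, mem_product, mem_singleton, and_true]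
    rw [e, card_product, card_singleton, one_mul, card_univ, Fintype.card_fin]
  have h2 := Finset.card_eq_sum_card_fiberwise (f := fun v : Fin 3 × Fin n => (π v).1)
    (s := univ.filter fun v : Fin 3 × Fin n => v.1 = i) (t := univ) (fun _ _ => mem_univ _)
  rw [h1, Fin.sum_univ_three] at h2
  have e : ∀ j : Fin 3, ((univ.filter fun v : Fin 3 × Fin n => v.1 = i).filter
      fun v => (π v).1 = j).card = cnt π i j := by
    intro j
    unfold cnt
    rw [Finset.filter_filter]
    simp only [Prod.mk.injEq]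
  rw [e, e, e] at h2
  exact h2.symm

theorem cnt_eq (h : ∀ v, π (π v) = v) (h' : ∀ v, (π v).1 ≠ v.1) (i j : Fin 3) :
    2 * cnt π i j = if i = j then 0 else n := by
  have s0 := cnt_sum π 0
  have s1 := cnt_sum π 1
  have s2 := cnt_sum π 2
  have a := cnt_symm π h 0 1
  have b := cnt_symm π h 0 2
  have c := cnt_symm π h 1 2
  have z0 := cnt_self π h' 0
  have z1 := cnt_self π h' 1
  have z2 := cnt_self π h' 2
  fin_cases i <;> fin_cases j <;> simp <;> omega

end

theorem main : S_MAT := by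
  intro n π π₀ h h₀ h' h₀'
  obtain ⟨G, hG⟩ := exists_equiv (fun v : Fin 3 × Fin n => (v.1, (π₀ v).1))
    (fun v => (v.1, (π v).1)) (by
      rintro ⟨i, j⟩
      have h1 := cnt_eq π₀ h₀ h₀' i j
      have h2 := cnt_eq π h h' i j
      have h3 : cnt π₀ i j = cnt π i j := by omega
      exact h3)
  have hG1 : ∀ v, (G v).1 = v.1 := fun v => (Prod.mk.inj (hG v)).1
  have hG2 : ∀ v, (π (G v)).1 = (π₀ v).1 := fun v => (Prod.mk.inj (hG v)).2
  obtain ⟨f, hf⟩ : ∃ f : Fin 3 × Fin n → Fin 3 × Fin n,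
    f = fun v => if v.1 < (π₀ v).1 then G v else π (G (π₀ v)) := ⟨_, rfl⟩
  have f1 : ∀ v, v.1 < (π₀ v).1 → f v = G v := fun v hv => by rw [hf]; exact if_pos hv
  have f2 : ∀ v, ¬ v.1 < (π₀ v).1 → f v = π (G (π₀ v)) := fun v hv => by rw [hf]; exact if_neg hv
  have hlt : ∀ v, ¬ v.1 < (π₀ v).1 → (π₀ v).1 < (π₀ (π₀ v)).1 := by
    intro v hv
    rw [h₀]
    exact lt_of_le_of_ne (not_lt.1 hv) (h₀' v)
  have hfst : ∀ v, (f v).1 = v.1 := by
    intro v
    by_cases hv : v.1 < (π₀ v).1
    · rw [f1 v hv, hG1]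
    · rw [f2 v hv, hG2, h₀]
  have hcomm : ∀ v, f (π₀ v) = π (f v) := by
    intro v
    by_cases hv : v.1 < (π₀ v).1
    · rw [f1 v hv, f2 (π₀ v) (by rw [h₀]; exact not_lt.2 hv.le), h₀]
    · rw [f2 v hv, f1 (π₀ v) (hlt v hv), h]
  have hinj : Function.Injective f := by
    intro v w hvw
    have e1 : v.1 = w.1 := by rw [← hfst v, ← hfst w, hvw]
    have e2 : (π₀ v).1 = (π₀ w).1 := by
      rw [← hfst (π₀ v), ← hfst (π₀ w), hcomm, hcomm, hvw]
    by_cases hv : v.1 < (π₀ v).1
    · have hw : w.1 < (π₀ w).1 := by rw [← e1, ← e2]; exact hv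
      rw [f1 v hv, f1 w hw] at hvw
      exact G.injective hvw
    · have hw : ¬ w.1 < (π₀ w).1 := by rw [← e1, ← e2]; exact hv
      rw [f2 v hv, f2 w hw] at hvw
      have e3 := congrArg π hvw
      rw [h, h] at e3
      have e4 := congrArg π₀ (G.injective e3)
      rwa [h₀, h₀] at e4
  refine ⟨Equiv.ofBijective f (Finite.injective_iff_bijective.1 hinj), fun v => ?_, fun v => ?_⟩
  · exact hfst v
  · exact hcomm v

end Pool.Agent.N769.LT.MAT
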